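import Pool.Agent.MP_1e8244_lc.Proof

open Filter Cardinal MeasureTheory Set Topology Pool.Agent.MP_1e8244_lc

/-- For every nonzero `σ`-finite Borel measure `μ` on Baire space that vanishes on points
(in particular for Lebesgue measure on Baire space), `b(∈*_K) ≤ b(≠*_N)`, where `N` is the ideal
of `μ`-null sets. This is the negated form of Q1. -/
theorem Pool.Agent.Results.MP_1e8244_lc.BoundingInequality.result
    (μ : Measure Baire) [SigmaFinite μ] (hat : ∀ x : Baire, μ {x} = 0) (hμ : μ ≠ 0) :
    boundingNumber EvIn idealK ≤ boundingNumber EvDiff (idealN μ) :=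
  boundingNumber_le μ hat hμ
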